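import Pool.Agent.H947R2.TP.Stubs

/-!
# One-coordinate fibre inequality
-/

open Finset

namespace H947TP

namespace C2ns

variable {D : ℕ}

theorem sm_self (z : ℤ) (p : Fin (D + 1)) :
    (z • (Pi.single p (1 : ℝ) : Fin (D + 1) → ℝ)) p = z := by
  rw [Pi.smul_apply, Pi.single_eq_same, zsmul_eq_mul, mul_one]

theorem sm_ne (z : ℤ) {p i : Fin (D + 1)} (h : i ≠ p) :
    (z • (Pi.single p (1 : ℝ) : Fin (D + 1) → ℝ)) i = 0 := by
  rw [Pi.smul_apply, Pi.single_eq_of_ne h, smul_zero]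

theorem remMap_apply (p : Fin (D + 1)) (u : Fin (D + 1) → ℝ) (i : Fin D) :
    remMap p u i = u (p.succAbove i) := rfl

theorem wgt_succAbove (p : Fin (D + 1)) (k : Fin D) (u : Fin (D + 1) → ℝ) :
    wgt (p.succAbove k) u = (1 - |u p|) * wgt k (remMap p u) := by
  have h1 : ∀ (m : ℕ) (q : Fin m) (f : Fin m → ℝ),
      ∏ l ∈ univ.erase q, f l = ∏ l, if l = q then 1 else f l := by
    intro m q f
    rw [← Finset.mul_prod_erase univ _ (mem_univ q), if_pos rfl, one_mul]
    refine Finset.prod_congr rfl fun l hl => ?_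
    rw [if_neg (ne_of_mem_erase hl)]
  rw [wgt, wgt, h1, h1, Fin.prod_univ_succAbove _ p, if_neg (Fin.succAbove_ne p k).symm]
  congr 1
  refine Finset.prod_congr rfl fun _ _ => ?_
  simp only [Fin.succAbove_right_inj, remMap_apply]

theorem rem_mem {L : AddSubgroup (Fin (D + 1) → ℝ)} {p : Fin (D + 1)} {k : Fin D}
    {u : Fin (D + 1) → ℝ} (hu : u ∈ AA L (p.succAbove k)) : remMap p u ∈ AA (L.map (remMap p)) k :=
  ⟨AddSubgroup.mem_map_of_mem _ hu.1, hu.2.1, fun l hl =>
    hu.2.2 _ (fun h => hl (Fin.succAbove_right_injective h))⟩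

theorem finA (hB3 : St_B3) {m : ℕ} {L : AddSubgroup (Fin m → ℝ)} (hL : IsTile L) (k : Fin m) :
    (AA L k).Finite := by
  refine ((hB3 m L hL).2.1 1).subset fun u hu => ⟨hu.1, fun i => ?_⟩
  by_cases hi : i = k
  · rw [hi, hu.2.1, abs_one]
  · exact (hu.2.2 i hi).le

theorem finB (hB3 : St_B3) {L : AddSubgroup (Fin (D + 1) → ℝ)} {p : Fin (D + 1)}
    (hL : IsTile L) (hp : (Pi.single p (1 : ℝ) : Fin (D + 1) → ℝ) ∈ L) (k : Fin D) :
    (AA (L.map (remMap p)) k).Finite := by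
  refine (((hB3 _ L hL).2.1 1).image (remMap p)).subset fun w hw => ?_
  obtain ⟨v, hv, hvw⟩ := hw.1
  have hmem : v - (⌊v p⌋ : ℤ) • (Pi.single p (1 : ℝ) : Fin (D + 1) → ℝ) ∈ L :=
    L.sub_mem hv (L.zsmul_mem hp _)
  have hrem : remMap p (v - (⌊v p⌋ : ℤ) • (Pi.single p (1 : ℝ) : Fin (D + 1) → ℝ)) = w := by
    rw [← hvw]
    funext i
    rw [remMap_apply, remMap_apply, Pi.sub_apply, sm_ne _ (Fin.succAbove_ne p i), sub_zero]
  refine ⟨_, ⟨hmem, fun i => ?_⟩, hrem⟩
  rcases Fin.eq_self_or_eq_succAbove p i with hi | ⟨j, hj⟩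
  · rw [hi, Pi.sub_apply, sm_self, abs_le]
    constructor
    · have := Int.floor_le (v p); linarith
    · have := Int.lt_floor_add_one (v p); linarith
  · have h1 := congrFun hrem j
    rw [remMap_apply, ← hj] at h1
    rw [h1]
    by_cases hjk : j = k
    · rw [hjk, hw.2.1, abs_one]
    · exact (hw.2.2 j hjk).le

/-- two elements with the same projection differ by an integer in the coordinate `p` -/
theorem diff_int (hB3 : St_B3) {L : AddSubgroup (Fin (D + 1) → ℝ)} {p : Fin (D + 1)}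
    (hL : IsTile L) (hp : (Pi.single p (1 : ℝ) : Fin (D + 1) → ℝ) ∈ L) {u v : Fin (D + 1) → ℝ}
    (hu : u ∈ L) (hv : v ∈ L) (h : remMap p u = remMap p v) :
    Int.fract (u p) = Int.fract (v p) := by
  have hmem : (u - v) - (⌊u p - v p⌋ : ℤ) • (Pi.single p (1 : ℝ) : Fin (D + 1) → ℝ) ∈ L :=
    L.sub_mem (L.sub_mem hu hv) (L.zsmul_mem hp _)
  have h0 := (hB3 _ L hL).2.2 _ hmem (fun i => by
    rcases Fin.eq_self_or_eq_succAbove p i with hi | ⟨j, hj⟩
    · rw [hi, Pi.sub_apply, Pi.sub_apply, sm_self, abs_lt]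
      constructor
      · have := Int.floor_le (u p - v p); linarith
      · have := Int.lt_floor_add_one (u p - v p); linarith
    · have h1 := congrFun h j
      rw [remMap_apply, remMap_apply, ← hj] at h1
      have h2 : i ≠ p := by rw [hj]; exact Fin.succAbove_ne p j
      rw [Pi.sub_apply, Pi.sub_apply, sm_ne _ h2, h1, sub_self, sub_zero, abs_zero]
      exact one_pos)
  have h1 := congrFun h0 p
  rw [Pi.sub_apply, Pi.sub_apply, sm_self, Pi.zero_apply] at h1
  rw [Int.fract_eq_fract]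
  exact ⟨⌊u p - v p⌋, by linarith⟩

/-- the sum over a fibre -/
theorem fibre_le (hB3 : St_B3) {L : AddSubgroup (Fin (D + 1) → ℝ)} {p : Fin (D + 1)}
    (hL : IsTile L) (hp : (Pi.single p (1 : ℝ) : Fin (D + 1) → ℝ) ∈ L) {h : ℝ → ℝ}
    (h0 : ∀ t, 0 ≤ t → t ≤ 1 → 0 ≤ h t)
    (h1 : ∀ θ, 0 ≤ θ → θ < 1 → (1 - θ) * h θ + θ * h (1 - θ) ≤ 1)
    (S : Finset (Fin (D + 1) → ℝ)) (w : Fin D → ℝ)
    (hS : ∀ u ∈ S, u ∈ L ∧ |u p| < 1 ∧ remMap p u = w) :
    ∑ u ∈ S, (1 - |u p|) * h |u p| ≤ 1 := by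
  classical
  rcases S.eq_empty_or_nonempty with rfl | ⟨u0, hu0⟩
  · simp
  · set θ := Int.fract (u0 p) with hθ
    have hθ0 : 0 ≤ θ := Int.fract_nonneg _
    have hθ1 : θ < 1 := Int.fract_lt_one _
    have hval : ∀ u ∈ S, u p ∈ ({θ, θ - 1} : Finset ℝ) := by
      intro u hu
      have hf : Int.fract (u p) = θ := diff_int hB3 hL hp (hS u hu).1 (hS u0 hu0).1
        ((hS u hu).2.2.trans (hS u0 hu0).2.2.symm)
      have hlt := abs_lt.1 (hS u hu).2.1
      have h2 : u p = ⌊u p⌋ + θ := by rw [← hf]; exact (Int.floor_add_fract (u p)).symm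
      have h3 : ⌊u p⌋ = 0 ∨ ⌊u p⌋ = -1 := by
        have h4 : ⌊u p⌋ < 1 := Int.floor_lt.2 (by exact_mod_cast hlt.2)
        have h5 : -1 ≤ ⌊u p⌋ := Int.le_floor.2 (by push_cast; exact hlt.1.le)
        omega
      rw [mem_insert, mem_singleton]
      rcases h3 with h3 | h3
      · left; rw [h2, h3]; simp
      · right; rw [h2, h3]; push_cast; ring
    have hinj : Set.InjOn (fun u : Fin (D + 1) → ℝ => u p) S := by
      intro u hu v hv huv
      funext i
      rcases Fin.eq_self_or_eq_succAbove p i with hi | ⟨j, hj⟩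
      · rw [hi]; exact huv
      · have h2 := congrFun ((hS u hu).2.2.trans (hS v hv).2.2.symm) j
        rw [remMap_apply, remMap_apply, ← hj] at h2
        exact h2
    have hsum : ∑ u ∈ S, (1 - |u p|) * h |u p| =
        ∑ t ∈ S.image (fun u => u p), (1 - |t|) * h |t| :=
      (Finset.sum_image (f := fun t => (1 - |t|) * h |t|) hinj).symm
    rw [hsum]
    have ha : |θ| = θ := abs_of_nonneg hθ0
    have hb : |θ - 1| = 1 - θ := by rw [abs_of_nonpos (by linarith)]; ring
    refine (Finset.sum_le_sum_of_subset_of_nonneg (t := ({θ, θ - 1} : Finset ℝ)) ?_ ?_).trans ?_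
    · intro t ht
      obtain ⟨u, hu, rfl⟩ := mem_image.1 ht
      exact hval u hu
    · intro t ht _
      rw [mem_insert, mem_singleton] at ht
      rcases ht with rfl | rfl
      · rw [ha]; exact mul_nonneg (by linarith) (h0 _ hθ0 hθ1.le)
      · rw [hb]; exact mul_nonneg (by linarith) (h0 _ (by linarith) (by linarith))
    · rw [Finset.sum_pair (by linarith), ha, hb]
      have h2 := h1 θ hθ0 hθ1
      have h3 : 1 - (1 - θ) = θ := by ring
      rw [h3]
      exact h2

end C2ns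

open C2ns in
/-- **C2** (uses B3) -/
theorem C2 (hB3 : St_B3) : St_C2 := by
  classical
  intro D L p hL hp k h F hF h0 h1
  have hA := finA hB3 hL (p.succAbove k)
  have hB := finB hB3 hL hp k
  rw [Ex, Ex, finsum_mem_eq_finite_toFinset_sum _ hA, finsum_mem_eq_finite_toFinset_sum _ hB]
  rw [← Finset.sum_fiberwise_of_maps_to (s := hA.toFinset) (t := hB.toFinset) (g := remMap p)
    (fun u hu => hB.mem_toFinset.2 (rem_mem (hA.mem_toFinset.1 hu)))]
  refine Finset.sum_le_sum fun w hw => ?_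
  have hw' := hB.mem_toFinset.1 hw
  have hstep : ∑ u ∈ hA.toFinset with remMap p u = w,
      wgt (p.succAbove k) u * (h |u p| * F (remMap p u)) =
      (wgt k w * F w) * ∑ u ∈ hA.toFinset with remMap p u = w, (1 - |u p|) * h |u p| := by
    rw [Finset.mul_sum]
    refine Finset.sum_congr rfl fun u hu => ?_
    rw [mem_filter] at hu
    rw [wgt_succAbove, hu.2]
    ring
  rw [hstep]
  have hw1 : 0 ≤ wgt k w := by
    rw [wgt]
    refine Finset.prod_nonneg fun l hl => ?_
    have := hw'.2.2 l (ne_of_mem_erase hl)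
    linarith
  have hF1 : 0 ≤ F w := by
    refine hF w fun i => ?_
    by_cases hi : i = k
    · rw [hi, hw'.2.1, abs_one]
    · exact (hw'.2.2 i hi).le
  have hfib := fibre_le hB3 hL hp h0 h1 (hA.toFinset.filter (fun u => remMap p u = w)) w
    (fun u hu => by
      rw [mem_filter] at hu
      have hu1 := hA.mem_toFinset.1 hu.1
      exact ⟨hu1.1, hu1.2.2 p (Fin.succAbove_ne p k).symm, hu.2⟩)
  calc (wgt k w * F w) * ∑ u ∈ hA.toFinset with remMap p u = w, (1 - |u p|) * h |u p|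
      ≤ (wgt k w * F w) * 1 := mul_le_mul_of_nonneg_left hfib (mul_nonneg hw1 hF1)
    _ = wgt k w * F w := mul_one _

end H947TP
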